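import Mathlib

namespace Pool.Agent.Results.MP_041491_an.Root3

open Finset

/-- the sign `±1` of a coordinate -/
def sg (b : Bool) : ℝ := if b then 1 else -1

/-- uniform average over the cube -/
noncomputable def avg {n : ℕ} (f : (Fin n → Bool) → ℝ) : ℝ := (∑ x, f x) / 2 ^ n

/-- Walsh character -/
def chi {n : ℕ} (S : Finset (Fin n)) (x : Fin n → Bool) : ℝ := ∏ i ∈ S, sg (x i)

/-- Fourier-Walsh coefficient -/
noncomputable def coef {n : ℕ} (f : (Fin n → Bool) → ℝ) (S : Finset (Fin n)) : ℝ :=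
  avg (fun x => f x * chi S x)

open Classical in
/-- degree: the largest size of a set with nonzero coefficient -/
noncomputable def deg {n : ℕ} (f : (Fin n → Bool) → ℝ) : ℕ :=
  (univ.filter (fun S => coef f S ≠ 0)).sup card

noncomputable def norm1 {n : ℕ} (f : (Fin n → Bool) → ℝ) : ℝ := avg (fun x => |f x|)

noncomputable def norm2 {n : ℕ} (f : (Fin n → Bool) → ℝ) : ℝ := √(avg (fun x => f x ^ 2))

lemma sum_prod {n : ℕ} (g : Fin n → Bool → ℝ) :
    ∑ x : Fin n → Bool, ∏ i, g i (x i) = ∏ i, (g i true + g i false) := by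
  have := Finset.prod_univ_sum (fun _ : Fin n => (univ : Finset Bool)) g
  rw [Fintype.piFinset_univ] at this
  rw [← this]
  simp

lemma chi_eq {n : ℕ} (S : Finset (Fin n)) (x : Fin n → Bool) :
    chi S x = ∏ i, (if i ∈ S then sg (x i) else 1) := by
  rw [chi, Finset.prod_ite_mem, univ_inter]

lemma sum3 {n : ℕ} (S T U : Finset (Fin n)) (h : S.card + T.card < U.card) :
    ∑ x : Fin n → Bool, chi S x * chi T x * chi U x = 0 := by
  obtain ⟨i, hi, hi'⟩ : ∃ i ∈ U, i ∉ S ∪ T := by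
    by_contra hc
    push Not at hc
    have := card_le_card (show U ⊆ S ∪ T from hc)
    have := card_union_le S T
    omega
  simp only [chi_eq, ← prod_mul_distrib]
  rw [sum_prod (fun i b => (if i ∈ S then sg b else 1) * (if i ∈ T then sg b else 1) *
    (if i ∈ U then sg b else 1))]
  apply prod_eq_zero (mem_univ i)
  simp only [mem_union, not_or] at hi'
  simp [hi, hi'.1, hi'.2, sg]

lemma sum2 {n : ℕ} (S T : Finset (Fin n)) :
    ∑ x : Fin n → Bool, chi S x * chi T x = if S = T then 2 ^ n else 0 := by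
  simp only [chi_eq, ← prod_mul_distrib]
  rw [sum_prod (fun i b => (if i ∈ S then sg b else 1) * (if i ∈ T then sg b else 1))]
  split_ifs with h
  · subst h
    have : ∀ i : Fin n, ((if i ∈ S then sg true else 1) * (if i ∈ S then sg true else 1) +
        (if i ∈ S then sg false else 1) * (if i ∈ S then sg false else 1)) = 2 := by
      intro i; by_cases hi : i ∈ S <;> simp [hi, sg] <;> norm_num
    simp only [this]; simp
  · obtain ⟨i, hi⟩ : ∃ i, ¬ (i ∈ S ↔ i ∈ T) := by
      by_contra hc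
      push Not at hc
      exact h (Finset.ext hc)
    apply prod_eq_zero (mem_univ i)
    by_cases h1 : i ∈ S <;> by_cases h2 : i ∈ T <;> simp_all [sg]

/-- elementary symmetric function -/
def el (n m : ℕ) (x : Fin n → Bool) : ℝ := ∑ S ∈ powersetCard m (univ : Finset (Fin n)), chi S x

lemma deg_el (n m : ℕ) : deg (fun x => el n m x ^ 2) ≤ 2 * m := by
  classical
  apply Finset.sup_le
  intro U hU
  by_contra hc
  push Not at hc
  apply (mem_filter.1 hU).2
  unfold coef avg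
  rw [div_eq_zero_iff]
  left
  simp only [el, sq, sum_mul_sum]
  simp only [sum_mul]
  rw [sum_comm]
  apply sum_eq_zero
  intro S hS
  rw [sum_comm]
  apply sum_eq_zero
  intro T hT
  apply sum3
  rw [(mem_powersetCard.1 hS).2, (mem_powersetCard.1 hT).2]
  omega

lemma avg_el (n m : ℕ) : avg (fun x => el n m x ^ 2) = n.choose m := by
  unfold avg
  rw [div_eq_iff (by positivity)]
  simp only [el, sq, sum_mul_sum]
  rw [sum_comm]
  have : ∀ S ∈ powersetCard m (univ : Finset (Fin n)), ∑ x : Fin n → Bool,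
      ∑ T ∈ powersetCard m (univ : Finset (Fin n)), chi S x * chi T x = 2 ^ n := by
    intro S hS
    rw [sum_comm]
    simp only [sum2]
    rw [sum_ite_eq]
    simp [hS]
  rw [sum_congr rfl this]
  simp

lemma gen (n : ℕ) (t : ℝ) (x : Fin n → Bool) :
    ∏ i, (1 + t * sg (x i)) = ∑ m ∈ range (n + 1), t ^ m * el n m x := by
  rw [prod_one_add, sum_powerset]
  simp only [card_univ, Fintype.card_fin]
  apply sum_congr rfl
  intro m _
  rw [el, mul_sum]
  apply sum_congr rfl
  intro S hS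
  rw [prod_mul_distrib, prod_const, (mem_powersetCard.1 hS).2, chi]

lemma key (n : ℕ) (t K : ℝ) (hK : 0 ≤ K)
    (h : ∀ m, avg (fun x => (el n m x ^ 2) ^ 2) ≤ (K ^ m * n.choose m) ^ 2) :
    (1 + 6 * t ^ 2) ^ n ≤ (n + 1) ^ 3 * ((1 + t ^ 2 * K) ^ 2) ^ n := by
  have h1 : ∑ x : Fin n → Bool, (∏ i, (1 + t * sg (x i))) ^ 4 =
      (2 * (1 + 6 * t ^ 2 + t ^ 4)) ^ n := by
    simp only [← prod_pow]
    rw [sum_prod (fun _ b => (1 + t * sg b) ^ 4)]
    simp only [prod_const, card_univ, Fintype.card_fin, sg]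
    congr 1
    simp; ring
  have h2 : ∀ x : Fin n → Bool, (∏ i, (1 + t * sg (x i))) ^ 4 ≤
      (n + 1) ^ 3 * ∑ m ∈ range (n + 1), (t ^ 2) ^ (2 * m) * (el n m x ^ 2) ^ 2 := by
    intro x
    rw [gen]
    have a1 := sq_sum_le_card_mul_sum_sq (s := range (n + 1)) (f := fun m => t ^ m * el n m x)
    have a2 := sq_sum_le_card_mul_sum_sq (s := range (n + 1))
      (f := fun m => (t ^ m * el n m x) ^ 2)
    simp only [card_range, Nat.cast_add, Nat.cast_one] at a1 a2
    have a3 : ∑ m ∈ range (n + 1), ((t ^ m * el n m x) ^ 2) ^ 2 =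
        ∑ m ∈ range (n + 1), (t ^ 2) ^ (2 * m) * (el n m x ^ 2) ^ 2 := by
      apply sum_congr rfl; intro m _; ring
    rw [← a3]
    have a4 := pow_le_pow_left₀ (sq_nonneg _) a1 2
    have hn : (0:ℝ) ≤ (n + 1) ^ 2 := by positivity
    have a5 := mul_le_mul_of_nonneg_left a2 hn
    calc _ = ((∑ m ∈ range (n + 1), t ^ m * el n m x) ^ 2) ^ 2 := by ring
      _ ≤ _ := a4
      _ = (n + 1) ^ 2 * (∑ m ∈ range (n + 1), (t ^ m * el n m x) ^ 2) ^ 2 := by ring
      _ ≤ _ := a5
      _ = _ := by ring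
  have h3 : (2 * (1 + 6 * t ^ 2 + t ^ 4)) ^ n ≤ (n + 1) ^ 3 *
      ∑ m ∈ range (n + 1), (t ^ 2) ^ (2 * m) * (2 ^ n * (K ^ m * n.choose m) ^ 2) := by
    rw [← h1]
    refine (sum_le_sum (fun x _ => h2 x)).trans ?_
    rw [← mul_sum, sum_comm]
    apply mul_le_mul_of_nonneg_left _ (by positivity)
    apply sum_le_sum
    intro m _
    rw [← mul_sum]
    apply mul_le_mul_of_nonneg_left _ (by positivity)
    have := h m
    unfold avg at this
    rw [div_le_iff₀ (by positivity)] at this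
    linarith
  have h4 : ∑ m ∈ range (n + 1), (t ^ 2) ^ (2 * m) * (2 ^ n * (K ^ m * n.choose m) ^ 2) ≤
      2 ^ n * ((1 + t ^ 2 * K) ^ 2) ^ n := by
    have b1 : (1 + t ^ 2 * K) ^ n = ∑ m ∈ range (n + 1), (t ^ 2 * K) ^ m * n.choose m := by
      rw [add_comm, add_pow]; simp
    have b2 := sum_sq_le_sq_sum_of_nonneg (s := range (n + 1))
      (f := fun m => (t ^ 2 * K) ^ m * (n.choose m : ℝ)) (fun m _ => by positivity)
    rw [← b1] at b2
    have b3 : ∑ m ∈ range (n + 1), (t ^ 2) ^ (2 * m) * (2 ^ n * (K ^ m * n.choose m) ^ 2) =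
        2 ^ n * ∑ m ∈ range (n + 1), ((t ^ 2 * K) ^ m * (n.choose m : ℝ)) ^ 2 := by
      rw [mul_sum]; apply sum_congr rfl; intro m _; ring
    rw [b3, ← pow_mul, mul_comm 2 n, pow_mul]
    exact mul_le_mul_of_nonneg_left b2 (by positivity)
  have h5 : (1 + 6 * t ^ 2) ^ n ≤ (1 + 6 * t ^ 2 + t ^ 4) ^ n :=
    pow_le_pow_left₀ (by positivity) (by nlinarith [pow_nonneg (sq_nonneg t) 2]) n
  have h6 : (2:ℝ) ^ n * (1 + 6 * t ^ 2 + t ^ 4) ^ n ≤
      2 ^ n * ((n + 1) ^ 3 * ((1 + t ^ 2 * K) ^ 2) ^ n) := by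
    rw [← mul_pow]
    refine h3.trans ?_
    have := mul_le_mul_of_nonneg_left h4 (show (0:ℝ) ≤ (n + 1) ^ 3 by positivity)
    linarith
  exact h5.trans (le_of_mul_le_mul_left h6 (by positivity))

lemma grow {a b : ℝ} (hb : 0 < b) (h : ∀ n : ℕ, 1 ≤ n → a ^ n ≤ (n + 1) ^ 3 * b ^ n) : a ≤ b := by
  by_contra hc
  push Not at hc
  have hr : 1 < a / b := (one_lt_div hb).2 hc
  have ht := tendsto_pow_const_div_const_pow_of_one_lt 3 hr
  obtain ⟨n, h1, h2⟩ := ((ht.eventually (gt_mem_nhds (show (0:ℝ) < 1/8 by norm_num))).and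
    (Filter.eventually_ge_atTop 1)).exists
  have h3 := h n h2
  have h4 : (1:ℝ) ≤ n := by exact_mod_cast h2
  rw [div_lt_iff₀ (by positivity), div_pow] at h1
  have h5 : a ^ n / b ^ n ≤ (n + 1) ^ 3 := by rw [div_le_iff₀ (by positivity)]; exact h3
  have h6 : ((n:ℝ) + 1) ^ 3 ≤ (2 * n) ^ 3 := pow_le_pow_left₀ (by positivity) (by linarith) 3
  nlinarith

theorem result (C : ℝ) (hC : 0 < C)
    (h : ∀ n : ℕ, 1 ≤ n → ∀ f : (Fin n → Bool) → ℝ, norm2 f ≤ C ^ deg f * norm1 f) :
    √3 ≤ C := by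
  set D := max C 1 with hD
  have hD1 : 1 ≤ D := le_max_right _ _
  have main : ∀ t : ℝ, 1 + 6 * t ^ 2 ≤ (1 + t ^ 2 * D ^ 2) ^ 2 := by
    intro t
    apply grow (by positivity)
    intro n hn
    apply key n t (D ^ 2) (by positivity)
    intro m
    have h1 := h n hn (fun x => el n m x ^ 2)
    have h2 : norm1 (fun x => el n m x ^ 2) = n.choose m := by
      rw [← avg_el]; unfold norm1; simp
    have h3 : C ^ deg (fun x => el n m x ^ 2) ≤ (D ^ 2) ^ m := by
      rw [← pow_mul]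
      exact (pow_le_pow_left₀ hC.le (le_max_left _ _) _).trans
        (pow_le_pow_right₀ hD1 (deg_el n m))
    rw [h2] at h1
    have h4 := h1.trans (mul_le_mul_of_nonneg_right h3 (by positivity))
    unfold norm2 at h4
    exact (Real.sqrt_le_left (by positivity)).1 h4
  have h3 : 3 ≤ D ^ 2 := by
    by_contra hc
    push Not at hc
    have hp : 0 < 3 - D ^ 2 := by linarith
    have := main (√((3 - D ^ 2) / 9))
    rw [Real.sq_sqrt (by positivity)] at this
    have hD0 : 0 ≤ D ^ 2 := by positivity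
    have h9 : (D ^ 2) ^ 2 ≤ 9 := by nlinarith
    set s := (3 - D ^ 2) / 9 with hs
    have hs0 : 0 < s := by positivity
    have e : D ^ 2 = 3 - 9 * s := by rw [hs]; ring
    have : 6 * s ≤ 2 * s * D ^ 2 + s ^ 2 * (D ^ 2) ^ 2 := by nlinarith
    have h10 : s ^ 2 * (D ^ 2) ^ 2 ≤ s ^ 2 * 9 := mul_le_mul_of_nonneg_left h9 (by positivity)
    nlinarith
  have h4 : D = C := by
    rcases le_total C 1 with h5 | h5
    · rw [hD, max_eq_right h5] at h3; norm_num at h3
    · exact max_eq_left h5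
  rw [h4] at h3
  exact Real.sqrt_le_left hC.le |>.2 h3

end Pool.Agent.Results.MP_041491_an.Root3
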